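import Mathlib
import Pool.Agent.Helper452.SlabMain

set_option autoImplicit false

open MeasureTheory

namespace Pool.Agent.Results.MP_bec814_gt.SlabMinimum

/-- `V(a,t)`: the Lebesgue measure of the slab of the cube `[-1,1]^n` of half-width `t`
in direction `a`. -/
noncomputable def V {n : ℕ} (a : Fin n → ℝ) (t : ℝ) : ENNReal :=
  volume {x : Fin n → ℝ | (∀ i, |x i| ≤ 1) ∧ |∑ i, x i * a i| ≤ t}

/-- the first coordinate vector `(1,0,...,0)` -/
def f1 (n : ℕ) : Fin n → ℝ := fun i => if (i : ℕ) = 0 then 1 else 0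

/-- the value of the slab volume in the coordinate direction -/
theorem V_f1 (n : ℕ) (hn : 1 ≤ n) (t : ℝ) (ht0 : 0 ≤ t) (ht1 : t ≤ 1) :
    V (f1 n) t = ENNReal.ofReal (2 ^ n * t) := by
  obtain ⟨m, rfl⟩ : ∃ m, n = m + 1 := ⟨n - 1, by omega⟩
  unfold V f1
  have hset : {x : Fin (m + 1) → ℝ | (∀ i, |x i| ≤ 1) ∧
      |∑ i, x i * (if (i : ℕ) = 0 then (1 : ℝ) else 0)| ≤ t}
      = Set.Icc (fun i : Fin (m + 1) => if (i : ℕ) = 0 then -t else -1)
        (fun i : Fin (m + 1) => if (i : ℕ) = 0 then t else 1) := by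
    ext x
    rw [Set.mem_Icc, Pi.le_def, Pi.le_def, Set.mem_ofPred_eq]
    have hsum : ∑ i, x i * (if (i : ℕ) = 0 then (1 : ℝ) else 0) = x 0 := by
      rw [Fin.sum_univ_succ]
      simp
    rw [hsum]
    constructor
    · rintro ⟨h1, h2⟩
      refine ⟨fun i => ?_, fun i => ?_⟩
      · rcases Fin.eq_zero_or_eq_succ i with h | ⟨j, h⟩
        · subst h; simpa using (abs_le.1 h2).1
        · subst h; simpa using (abs_le.1 (h1 j.succ)).1
      · rcases Fin.eq_zero_or_eq_succ i with h | ⟨j, h⟩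
        · subst h; simpa using (abs_le.1 h2).2
        · subst h; simpa using (abs_le.1 (h1 j.succ)).2
    · rintro ⟨h1, h2⟩
      refine ⟨fun i => ?_, ?_⟩
      · rcases Fin.eq_zero_or_eq_succ i with h | ⟨j, h⟩
        · subst h
          have e1 := h1 0
          have e2 := h2 0
          simp only [Fin.val_zero, if_true] at e1 e2
          exact abs_le.2 ⟨by linarith, by linarith⟩
        · subst h
          have e1 := h1 j.succ
          have e2 := h2 j.succ
          simp only [Fin.val_succ, Nat.succ_ne_zero, if_false] at e1 e2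
          exact abs_le.2 ⟨e1, e2⟩
      · have e1 := h1 0
        have e2 := h2 0
        simp only [Fin.val_zero, if_true] at e1 e2
        exact abs_le.2 ⟨e1, e2⟩
  rw [hset, Real.volume_Icc_pi, Fin.prod_univ_succ]
  simp only [Fin.val_zero, if_true, Fin.val_succ, Nat.succ_ne_zero, if_false, Finset.prod_const,
    Finset.card_univ, Fintype.card_fin]
  rw [← ENNReal.ofReal_pow (by norm_num), ← ENNReal.ofReal_mul (by linarith)]
  congr 1
  rw [pow_succ]
  norm_num
  ring

/-- For every dimension `n ≥ 1` and every half-width `0 < t ≤ 2√2 - 2`, among all unit vectors `a`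
the slab volume `V(a,t)` is minimal at the coordinate vector `f1`. -/
theorem result (n : ℕ) (hn : 1 ≤ n) (t : ℝ) (ht0 : 0 < t) (ht : t ≤ 2 * Real.sqrt 2 - 2) :
    IsLeast ((fun a => V a t) '' {a : Fin n → ℝ | ∑ i, a i ^ 2 = 1}) (V (f1 n) t) := by
  have ht1 : t ≤ 1 := by
    have := Pool.Agent.Helper452.T_lt
    unfold Pool.Agent.Helper452.T at this
    linarith
  constructor
  · refine ⟨f1 n, ?_, rfl⟩
    obtain ⟨m, rfl⟩ : ∃ m, n = m + 1 := ⟨n - 1, by omega⟩
    rw [Set.mem_ofPred_eq, Fin.sum_univ_succ]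
    simp [f1]
  · rintro v ⟨a, ha, rfl⟩
    have h := Pool.Agent.Helper452.slab_volume_ge a ha t ht0 ht
    have e : Pool.Agent.Helper452.slab a t
        = {x : Fin n → ℝ | (∀ i, |x i| ≤ 1) ∧ |∑ i, x i * a i| ≤ t} := by
      unfold Pool.Agent.Helper452.slab
      simp_rw [mul_comm]
    rw [V_f1 n hn t ht0.le ht1]
    show ENNReal.ofReal (2 ^ n * t) ≤ V a t
    unfold V
    rw [← e]
    exact (ENNReal.ofReal_le_iff_le_toReal (Pool.Agent.Helper452.slab_volume_ne_top a t)).2 h

end Pool.Agent.Results.MP_bec814_gt.SlabMinimum
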